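import Mathlib
import Pool.Agent.Q243.FreeQuat

/-!
# The replacement number of `ℝ⁴` under the Euclidean group is infinite

There are freely independent unit quaternions `u F`, one for every finite subset `F` of `ℍ = ℝ⁴`.
The free group they generate acts freely on `ℍ ∖ {0}` by left multiplications, which are isometries.
Hence there is a colouring `c : ℍ → ZMod 2` such that, for every finite set `F`, the colouring
`c + 1_F` is invariant under `x ↦ u F * x`: on every orbit one prescribes `c` at one point and extends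
it along the edges of the Cayley tree.  So no change of finitely many values makes `c`
distinguishing, while the distinguishing number of `ℝ⁴` is two.
-/

set_option linter.unusedSectionVars false

namespace Pool.Agent.Results.MP_d3aff2_co.InfiniteReplacement

open Quaternion Cardinal Pool.Agent.Q243.FreeQuat

noncomputable section

/-- A colouring of `ℝⁿ` is distinguishing if the identity is the only isometry preserving it. -/
def Distinguishing {n k : ℕ} (c : EuclideanSpace ℝ (Fin n) → Fin k) : Prop :=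
  ∀ g : EuclideanSpace ℝ (Fin n) ≃ᵢ EuclideanSpace ℝ (Fin n), (∀ x, c (g x) = c x) →
    g = IsometryEquiv.refl _

/-- The distinguishing number of `ℝⁿ` under `E(n)`. -/
def distNum (n : ℕ) : ℕ :=
  sInf {k : ℕ | ∃ c : EuclideanSpace ℝ (Fin n) → Fin k, Distinguishing c}

/-- Every `k`-colouring of `ℝⁿ` can be made distinguishing by changing the colours (within the same
palette) of at most `m` points. -/
def Repairable (n k m : ℕ) : Prop :=
  ∀ c : EuclideanSpace ℝ (Fin n) → Fin k, ∃ c' : EuclideanSpace ℝ (Fin n) → Fin k,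
    {x | c x ≠ c' x}.encard ≤ m ∧ Distinguishing c'

/-- The replacement number `R(ℝⁿ, E(n))`. -/
def replNum (n : ℕ) : ℕ∞ := sInf {m : ℕ∞ | ∃ k : ℕ, m = k ∧ Repairable n (distNum n) k}

/-! ### The colouring of the quaternions -/

section coloring

open Classical in
/-- Indicator function of a finite set. -/
def ind (F : Finset ℍ[ℝ]) (x : ℍ[ℝ]) : ZMod 2 := if x ∈ F then 1 else 0

lemma two_cancel (a b : ZMod 2) : a + b + b = a := by
  rw [add_assoc, CharTwo.add_self_eq_zero, add_zero]

lemma star_mul_self {u : ℍ[ℝ]} (hu : ‖u‖ = 1) : star u * u = 1 := by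
  rw [Quaternion.star_mul_self, Quaternion.normSq_eq_norm_mul_self, hu]
  simp

lemma mul_star_self {u : ℍ[ℝ]} (hu : ‖u‖ = 1) : u * star u = 1 := by
  rw [Quaternion.self_mul_star, Quaternion.normSq_eq_norm_mul_self, hu]
  simp

/-- A unit quaternion as a unit. -/
def toUnit (u : ℍ[ℝ]) (hu : ‖u‖ = 1) : ℍ[ℝ]ˣ := ⟨u, star u, mul_star_self hu, star_mul_self hu⟩

/-- The lifted permutation. -/
def act1 (u : Finset ℍ[ℝ] → ℍ[ℝ]) (hu : ∀ F, ‖u F‖ = 1) (F : Finset ℍ[ℝ]) :
    Equiv.Perm (ℍ[ℝ] × ZMod 2) where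
  toFun p := (u F * p.1, p.2 + ind F p.1 + ind F (u F * p.1))
  invFun p := (star (u F) * p.1, p.2 + ind F p.1 + ind F (star (u F) * p.1))
  left_inv p := by
    have e : star (u F) * (u F * p.1) = p.1 := by
      rw [← mul_assoc, star_mul_self (hu F), one_mul]
    simp only [e]
    rw [two_cancel, two_cancel]
  right_inv p := by
    have e : u F * (star (u F) * p.1) = p.1 := by
      rw [← mul_assoc, mul_star_self (hu F), one_mul]
    simp only [e]
    rw [two_cancel, two_cancel]

open Classical in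
theorem exists_coloring : ∃ (c : ℍ[ℝ] → ZMod 2) (u : Finset ℍ[ℝ] → ℍ[ℝ]), (∀ F, ‖u F‖ = 1) ∧
    (∀ F, u F ≠ 1) ∧ ∀ F x, c (u F * x) = c x + ind F x + ind F (u F * x) := by
  have hinf : Infinite ℍ[ℝ] :=
    Infinite.of_injective (fun x : ℝ => (x : ℍ[ℝ])) Quaternion.coe_injective
  have hcard : #(Finset ℍ[ℝ]) ≤ 𝔠 := by
    rw [Cardinal.mk_finset_of_infinite, Cardinal.mk_quaternion_of_infinite, Cardinal.mk_real]
  obtain ⟨u, hu, hfree⟩ := exists_free (Finset ℍ[ℝ]) hcard
  let ψ : FreeGroup (Finset ℍ[ℝ]) →* ℍ[ℝ]ˣ := FreeGroup.lift fun F => toUnit (u F) (hu F)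
  let φ : FreeGroup (Finset ℍ[ℝ]) →* Equiv.Perm (ℍ[ℝ] × ZMod 2) := FreeGroup.lift (act1 u hu)
  -- the action is free
  have hψval : ∀ g, ((ψ g : ℍ[ℝ]ˣ) : ℍ[ℝ]) = wp u g.toWord := by
    intro g
    have h1 : ψ g = ψ (FreeGroup.mk g.toWord) := by rw [FreeGroup.mk_toWord]
    rw [h1]
    simp only [ψ, FreeGroup.lift_mk]
    generalize g.toWord = L
    induction L with
    | nil => rfl
    | cons a L ih =>
      rw [List.map_cons, List.prod_cons, Units.val_mul, ih, wp_cons]
      congr 1
      cases a.2 <;> rfl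
  have hψinj : Function.Injective ψ := by
    rw [injective_iff_map_eq_one]
    intro g hg
    by_contra hne
    apply hfree g.toWord
    · intro h
      exact hne (FreeGroup.toWord_eq_nil_iff.1 h)
    · exact FreeGroup.isReduced_toWord
    · rw [← hψval, hg]
      rfl
  -- first component of the lifted action
  have hfst : ∀ g p, (φ g p).1 = (ψ g : ℍ[ℝ]) * p.1 := by
    intro g
    induction g using FreeGroup.induction_on with
    | C1 => intro p; simp
    | of F => intro p; simp [φ, ψ, act1, toUnit]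
    | inv_of F _ =>
      intro p
      simp only [map_inv]
      simp only [φ, ψ, FreeGroup.lift_apply_of]
      rfl
    | mul x y hx hy =>
      intro p
      rw [map_mul, map_mul, Equiv.Perm.mul_apply, hx, hy, Units.val_mul, mul_assoc]
  -- orbits
  let s : Setoid ℍ[ℝ] :=
    { r := fun x y => ∃ g, (ψ g : ℍ[ℝ]) * x = y
      iseqv := by
        refine ⟨fun x => ⟨1, by simp⟩, ?_, ?_⟩
        · rintro x y ⟨g, rfl⟩
          exact ⟨g⁻¹, by rw [map_inv, Units.inv_mul_cancel_left]⟩
        · rintro x y z ⟨g, rfl⟩ ⟨h, rfl⟩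
          exact ⟨h * g, by rw [map_mul, Units.val_mul, mul_assoc]⟩ }
  let r : ℍ[ℝ] → ℍ[ℝ] := fun x => (Quotient.mk s x).out
  have hr : ∀ x, ∃ g, (ψ g : ℍ[ℝ]) * r x = x := fun x => Quotient.mk_out (s := s) x
  choose gg hgg using hr
  refine ⟨fun x => (φ (gg x) (r x, 0)).2, u, hu, ?_, ?_⟩
  · intro F h1
    apply hfree [(F, true)] (by simp) (by simp)
    simp [wp, h1]
  · intro F x
    by_cases hx : x = 0
    · subst hx
      rw [mul_zero, two_cancel]
    · have hclass : Quotient.mk s (u F * x) = Quotient.mk s x := by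
        apply Quotient.sound
        refine ⟨(FreeGroup.of F)⁻¹, ?_⟩
        rw [map_inv]
        have e : ((ψ (FreeGroup.of F) : ℍ[ℝ]ˣ) : ℍ[ℝ]) = u F := by simp [ψ, toUnit]
        rw [← e, Units.inv_mul_cancel_left]
      have hrr : r (u F * x) = r x := by
        simp only [r, hclass]
      have hr0 : r x ≠ 0 := by
        intro h0
        apply hx
        rw [← hgg x, h0, mul_zero]
      have hg : gg (u F * x) = FreeGroup.of F * gg x := by
        apply hψinj
        apply Units.ext
        have e : ((ψ (FreeGroup.of F) : ℍ[ℝ]ˣ) : ℍ[ℝ]) = u F := by simp [ψ, toUnit]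
        have h1 := hgg (u F * x)
        rw [hrr] at h1
        apply mul_right_cancel₀ hr0
        rw [h1, map_mul, Units.val_mul, mul_assoc, hgg x, e]
      have hpair : φ (gg x) (r x, 0) = (x, (φ (gg x) (r x, 0)).2) := by
        apply Prod.ext
        · rw [hfst]
          exact hgg x
        · rfl
      simp only
      rw [hrr, hg, map_mul, Equiv.Perm.mul_apply, hpair]
      simp [φ, act1]

end coloring

/-! ### The distinguishing number of `ℝ⁴` is two -/

section two

/-- Squared distance in coordinates. -/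
def sq (x y : EuclideanSpace ℝ (Fin 4)) : ℝ := ∑ i, (x i - y i) ^ 2

lemma sq_nonneg' (x y : EuclideanSpace ℝ (Fin 4)) : 0 ≤ sq x y :=
  Finset.sum_nonneg fun i _ => _root_.sq_nonneg _

lemma sq_iso (g : EuclideanSpace ℝ (Fin 4) ≃ᵢ EuclideanSpace ℝ (Fin 4))
    (x y : EuclideanSpace ℝ (Fin 4)) : sq (g x) (g y) = sq x y := by
  have h := g.isometry.dist_eq x y
  rw [EuclideanSpace.dist_eq, EuclideanSpace.dist_eq] at h
  have h1 := (Real.sqrt_inj (Finset.sum_nonneg fun i _ => by positivity)
    (Finset.sum_nonneg fun i _ => by positivity)).1 h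
  simpa [sq, Real.dist_eq, sq_abs] using h1

/-- The points `√(2 ^ i) eᵢ`. -/
def pt (i : Fin 4) : EuclideanSpace ℝ (Fin 4) := EuclideanSpace.single i (Real.sqrt (2 ^ (i : ℕ)))

lemma pt_apply (i j : Fin 4) : pt i j = if j = i then Real.sqrt (2 ^ (i : ℕ)) else 0 := by
  simp [pt]

lemma sqrt_sq (i : Fin 4) : Real.sqrt (2 ^ (i : ℕ)) ^ 2 = 2 ^ (i : ℕ) :=
  Real.sq_sqrt (by positivity)

lemma sq_zero_pt (i : Fin 4) : sq 0 (pt i) = 2 ^ (i : ℕ) := by
  unfold sq
  simp only [pt_apply, PiLp.zero_apply, zero_sub, neg_sq]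
  rw [Finset.sum_eq_single i]
  · rw [if_pos rfl, sqrt_sq]
  · intro j _ hj
    rw [if_neg hj]
    norm_num
  · intro h
    exact absurd (Finset.mem_univ i) h

lemma sq_comm (x y : EuclideanSpace ℝ (Fin 4)) : sq x y = sq y x := by
  unfold sq
  apply Finset.sum_congr rfl
  intro i _
  ring

lemma sq_self (x : EuclideanSpace ℝ (Fin 4)) : sq x x = 0 := by
  simp [sq]

lemma sq_pt_pt (i j : Fin 4) (h : i ≠ j) : sq (pt i) (pt j) = 2 ^ (i : ℕ) + 2 ^ (j : ℕ) := by
  have e : ∀ k, (pt i k - pt j k) ^ 2 = (pt i k) ^ 2 + (pt j k) ^ 2 := by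
    intro k
    have h0 : pt i k * pt j k = 0 := by
      rw [pt_apply, pt_apply]
      by_cases h1 : k = i
      · rw [if_neg (show k ≠ j from fun h2 => h (h1.symm.trans h2)), mul_zero]
      · rw [if_neg h1, zero_mul]
    linear_combination -2 * h0
  have h1 := sq_zero_pt i
  have h2 := sq_zero_pt j
  unfold sq at h1 h2 ⊢
  simp only [e, Finset.sum_add_distrib]
  simp only [PiLp.zero_apply, zero_sub, neg_sq] at h1 h2
  rw [h1, h2]

lemma pow_inj (i j : Fin 4) (h : (2 : ℝ) ^ (i : ℕ) = 2 ^ (j : ℕ)) : i = j := by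
  have h1 : (2 : ℕ) ^ (i : ℕ) = 2 ^ (j : ℕ) := by exact_mod_cast h
  exact Fin.ext (Nat.pow_right_injective (le_refl 2) h1)

lemma pow_sum (i j k : Fin 4) (hij : i ≠ j) (h : (2 : ℝ) ^ (i : ℕ) + 2 ^ (j : ℕ) = 2 ^ (k : ℕ)) :
    False := by
  have h1 : (2 : ℕ) ^ (i : ℕ) + 2 ^ (j : ℕ) = 2 ^ (k : ℕ) := by exact_mod_cast h
  clear h
  revert i j k
  decide

lemma pow_pos' (i : Fin 4) : (0 : ℝ) < 2 ^ (i : ℕ) := by positivity

/-- The set of five points. -/
def InS (x : EuclideanSpace ℝ (Fin 4)) : Prop := x = 0 ∨ ∃ i, x = pt i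

lemma iso_eq_refl (g : EuclideanSpace ℝ (Fin 4) ≃ᵢ EuclideanSpace ℝ (Fin 4))
    (hg : ∀ x, InS x → InS (g x)) : g = IsometryEquiv.refl _ := by
  have hstep : ∀ i : Fin 4, (g 0 = 0 ∧ g (pt i) = pt i) ∨ g 0 = pt i := by
    intro i
    have hd := sq_iso g 0 (pt i)
    rw [sq_zero_pt] at hd
    rcases hg 0 (Or.inl rfl) with h0 | ⟨k, h0⟩
    · left
      rw [h0] at hd
      refine ⟨h0, ?_⟩
      rcases hg (pt i) (Or.inr ⟨i, rfl⟩) with h1 | ⟨j, h1⟩
      · rw [h1, sq_self] at hd
        exact absurd hd (pow_pos' i).ne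
      · rw [h1, sq_zero_pt] at hd
        rw [h1, pow_inj j i hd]
    · right
      rw [h0] at hd
      rcases hg (pt i) (Or.inr ⟨i, rfl⟩) with h1 | ⟨j, h1⟩
      · rw [h1, sq_comm, sq_zero_pt] at hd
        rw [h0, pow_inj k i hd]
      · rw [h1] at hd
        by_cases hkj : k = j
        · rw [hkj, sq_self] at hd
          exact absurd hd (pow_pos' i).ne
        · rw [sq_pt_pt k j hkj] at hd
          exact absurd hd (fun h => pow_sum k j i hkj h)
  have hg0 : g 0 = 0 := by
    rcases hstep 0 with h | h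
    · exact h.1
    · rcases hstep 1 with h' | h'
      · exact h'.1
      · exfalso
        have e : sq 0 (pt 0) = sq 0 (pt 1) := by rw [← h, ← h']
        rw [sq_zero_pt, sq_zero_pt] at e
        norm_num at e
  have hgi : ∀ i, g (pt i) = pt i := by
    intro i
    rcases hstep i with h | h
    · exact h.2
    · exfalso
      rw [hg0] at h
      have e : sq 0 (pt i) = 0 := by rw [← h, sq_self]
      rw [sq_zero_pt] at e
      exact (pow_pos' i).ne' e
  ext x i
  have h1 := sq_iso g 0 x
  have h2 := sq_iso g (pt i) x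
  rw [hg0] at h1
  rw [hgi] at h2
  have e : ∀ y : EuclideanSpace ℝ (Fin 4), sq (pt i) y
      = 2 ^ (i : ℕ) + sq 0 y - 2 * (Real.sqrt (2 ^ (i : ℕ)) * y i) := by
    intro y
    have e1 : ∀ k, (pt i k - y k) ^ 2 = (pt i k) ^ 2 + (y k) ^ 2 - 2 * (pt i k * y k) := by
      intro k
      ring
    have e2 : ∑ k, pt i k * y k = Real.sqrt (2 ^ (i : ℕ)) * y i := by
      rw [Finset.sum_eq_single i]
      · rw [pt_apply, if_pos rfl]
      · intro j _ hj
        rw [pt_apply, if_neg hj, zero_mul]
      · intro h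
        exact absurd (Finset.mem_univ i) h
    have h3 := sq_zero_pt i
    unfold sq at h3 ⊢
    simp only [e1, Finset.sum_sub_distrib, Finset.sum_add_distrib, ← Finset.mul_sum, e2]
    simp only [PiLp.zero_apply, zero_sub, neg_sq] at h3 ⊢
    rw [h3]
  rw [e, e, h1] at h2
  have hpos : (0 : ℝ) < Real.sqrt (2 ^ (i : ℕ)) := Real.sqrt_pos.2 (by positivity)
  have h4 : Real.sqrt (2 ^ (i : ℕ)) * (g x) i = Real.sqrt (2 ^ (i : ℕ)) * x i := by linarith
  exact mul_left_cancel₀ hpos.ne' h4

open Classical in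
lemma distNum_four : distNum 4 = 2 := by
  apply le_antisymm
  · apply Nat.sInf_le
    refine ⟨fun x => if InS x then 1 else 0, ?_⟩
    intro g hg
    apply iso_eq_refl
    intro x hx
    have h : (if InS (g x) then (1 : Fin 2) else 0) = if InS x then 1 else 0 := hg x
    rw [if_pos hx] at h
    by_contra hne
    rw [if_neg hne] at h
    exact absurd h (by decide)
  · apply le_csInf
    · refine ⟨2, fun x => if InS x then 1 else 0, ?_⟩
      intro g hg
      apply iso_eq_refl
      intro x hx
      have h : (if InS (g x) then (1 : Fin 2) else 0) = if InS x then 1 else 0 := hg x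
      rw [if_pos hx] at h
      by_contra hne
      rw [if_neg hne] at h
      exact absurd h (by decide)
    · rintro k ⟨c, hc⟩
      by_contra hlt
      have hsub : Subsingleton (Fin k) := by
        apply Fin.subsingleton_iff_le_one.2
        omega
      have h1 := hc (IsometryEquiv.neg _) (fun x => Subsingleton.elim _ _)
      have h2 := DFunLike.congr_fun h1 (pt 0)
      have h3 : (-pt 0 : EuclideanSpace ℝ (Fin 4)) 0 = pt 0 0 := by
        exact congrArg (fun v : EuclideanSpace ℝ (Fin 4) => v 0) h2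
      rw [PiLp.neg_apply, pt_apply] at h3
      norm_num at h3

end two

/-! ### The theorem -/

/-- No number of recolourings is enough. -/
lemma not_repairable (m : ℕ) : ¬ Repairable 4 2 m := by
  classical
  intro hrep
  obtain ⟨c, u, hu, hu1, hc⟩ := exists_coloring
  let e := Quaternion.linearIsometryEquivTuple
  obtain ⟨c', hfin, hdist⟩ := hrep fun x => c (e.symm x)
  have hfin' : {x | (c (e.symm x) : Fin 2) ≠ c' x}.Finite := by
    apply Set.finite_of_encard_le_coe hfin
  let F : Finset ℍ[ℝ] := hfin'.toFinset.image e.symm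
  have hF : ∀ x : ℍ[ℝ], x ∈ F ↔ c x ≠ c' (e x) := by
    intro x
    simp only [F, Finset.mem_image, Set.Finite.mem_toFinset, Set.mem_ofPred_eq]
    constructor
    · rintro ⟨y, hy, rfl⟩
      rw [e.apply_symm_apply]
      exact hy
    · intro h
      refine ⟨e x, ?_, e.symm_apply_apply x⟩
      rw [e.symm_apply_apply]
      exact h
  -- the new colouring is `c + 1_F`
  have hc' : ∀ x : ℍ[ℝ], (c' (e x) : ZMod 2) = c x + ind F x := by
    intro x
    unfold ind
    split_ifs with hx
    · rw [hF] at hx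
      have key : ∀ a b : ZMod 2, a ≠ b → b = a + 1 := by decide
      exact key _ _ hx
    · rw [hF, not_not] at hx
      rw [add_zero, hx]
  -- the isometry
  let L : ℍ[ℝ] ≃ᵢ ℍ[ℝ] :=
    { toFun := fun x => u F * x
      invFun := fun x => star (u F) * x
      left_inv := fun x => by
        change star (u F) * (u F * x) = x
        rw [← mul_assoc, star_mul_self (hu F), one_mul]
      right_inv := fun x => by
        change u F * (star (u F) * x) = x
        rw [← mul_assoc, mul_star_self (hu F), one_mul]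
      isometry_toFun := by
        apply Isometry.of_dist_eq
        intro x y
        rw [dist_eq_norm, dist_eq_norm, ← mul_sub, norm_mul, hu, one_mul] }
  let g : EuclideanSpace ℝ (Fin 4) ≃ᵢ EuclideanSpace ℝ (Fin 4) :=
    (e.symm.toIsometryEquiv.trans L).trans e.toIsometryEquiv
  have hgv : ∀ x : ℍ[ℝ], g (e x) = e (u F * x) := by
    intro x
    change e (u F * e.symm (e x)) = _
    rw [e.symm_apply_apply]
  have hginv : ∀ y, c' (g y) = c' y := by
    intro y
    obtain ⟨x, rfl⟩ := e.surjective y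
    rw [hgv]
    have h1 := hc' (u F * x)
    have h2 := hc' x
    rw [hc F x, two_cancel] at h1
    exact h1.trans h2.symm
  have hone := hdist g hginv
  have h3 := hgv 1
  rw [hone] at h3
  have h4 : e 1 = e (u F * 1) := h3
  have h5 := e.injective h4
  rw [mul_one] at h5
  exact hu1 F h5.symm

/-- **Q1 of MP_d3aff2_co is false.**  The replacement number of `ℝ⁴` under the Euclidean group `E(4)`
is infinite. -/
theorem result : replNum 4 = ⊤ := by
  unfold replNum
  rw [distNum_four]
  have : {m : ℕ∞ | ∃ k : ℕ, m = k ∧ Repairable 4 2 k} = ∅ := by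
    ext m
    constructor
    · rintro ⟨k, _, h⟩
      exact absurd h (not_repairable k)
    · intro h
      exact absurd h (Set.notMem_empty m)
  rw [this]
  exact sInf_empty

end

end Pool.Agent.Results.MP_d3aff2_co.InfiniteReplacement
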